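import Pool.Agent.H98.PW.Stmts

/-!
# PW, row DTN: the determinant method at the limit
-/

set_option autoImplicit false

namespace Pool.PW

open Finset Filter MvPolynomial Pool.Agent.H98.ABCR

namespace DTNr

/-- the value of an integer polynomial at a natural point, over the rationals -/
lemma eval_cast {n : ℕ} (x : Fin n → ℕ) (f : MvPolynomial (Fin n) ℤ) :
    eval (fun k => (x k : ℚ)) (map (Int.castRingHom ℚ) f) = ((eval (pt x) f : ℤ) : ℚ) := by
  rw [eval_map]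
  have h := MvPolynomial.eval₂_comp_left (Int.castRingHom ℚ) (RingHom.id ℤ) (pt x) f
  have h2 : ((eval (pt x) f : ℤ) : ℚ) = (Int.castRingHom ℚ) (eval₂ (RingHom.id ℤ) (pt x) f) := rfl
  rw [h2, h]
  have h3 : (⇑(Int.castRingHom ℚ) ∘ pt x) = fun k => (x k : ℚ) := by
    funext k
    simp [pt]
  rw [h3]
  rfl

end DTNr

open DTNr in
theorem dtn_thm (hDET : S_DET) (hSEL : S_SEL) (hLFT : S_LFT) : S_DTN := by
  classical
  intro U X n T T' J G g F i hX hgen hbox hch hi hsub hlarge hne hlog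
  obtain ⟨η, p, T'', hη, hsub2, hlarge2, hp⟩ := hSEL U X n T'
    (fun m x => eval (pt x) (bb J (g m) * EE J (g m) i (F m))) hX hlarge (by
      intro c hc
      filter_upwards [hne, hlog c hc] with m h1 h2 x hx
      exact ⟨(h1 x hx).2, h2 x hx⟩)
  obtain ⟨D, B, X0, hB, hX0, hdet⟩ := hDET n η hη
  obtain ⟨c, hc, hcard⟩ := hlarge2
  -- the relations hold on `T`
  have hvan : ∀ᶠ m in (U : Filter ℕ), ∀ k, k ∉ J → ∀ x ∈ T m, eval (pt x) (g m k) = 0 := by
    have h1 : ∀ k : Fin n, ∀ᶠ m in (U : Filter ℕ), k ∉ J → ∀ x ∈ T m,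
        eval (pt x) (g m k) = 0 := by
      intro k
      by_cases hk : k ∈ J
      · exact Filter.Eventually.of_forall fun m h => absurd hk h
      · have h2 := hch.van k hk
        filter_upwards [h2, hch.lvg] with m h3 h4 _ x hx
        have h5 := h3 x hx
        unfold ev at h5
        rw [h4 k, eval_cast] at h5
        exact_mod_cast h5
    exact Filter.eventually_all.mpr h1
  have hXge : ∀ᶠ m in (U : Filter ℕ), max X0 1 ≤ X m := hX.eventually_ge_atTop _
  -- the relations of bounded degree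
  have hex : ∀ᶠ m in (U : Filter ℕ), ∃ H : MvPolynomial (Fin n) ℤ, H ≠ 0 ∧ H.vars ⊆ J ∧
      H.totalDegree ≤ D ∧ (∀ a, |((H.coeff a : ℤ) : ℝ)| ≤ mm X m ^ (⌈B⌉₊)) ∧
      ∀ x ∈ T'' m, eval (pt x) H = 0 := by
    filter_upwards [hXge, hp, hcard, hbox, hvan, hch.vr, hne] with m h1 h2 h3 h4 h5 h6 h7
    obtain ⟨hpr, hp1, hp2, hp3⟩ := h2
    have hX1 : (1 : ℝ) ≤ X m := le_trans (le_max_right _ _) h1
    have hX0' : X0 ≤ X m := le_trans (le_max_left _ _) h1
    have hcard1 : (0 : ℝ) < ((T'' m).card : ℝ) :=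
      lt_of_lt_of_le (Real.rpow_pos_of_pos (by linarith) c) h3
    have hne' : (T'' m).Nonempty := by
      rw [← Finset.card_pos]
      exact_mod_cast hcard1
    obtain ⟨P, hP⟩ := hne'
    obtain ⟨H, hH0, hHv, hHd, hHc, hHz⟩ := hdet (X m) (p m) J i P (T'' m) (g m) (F m) hX0' hpr hp1
      hi hP
      (fun x hx k => ⟨(h4 x (hsub m (hsub2 m hx)) k).2, (hp3 x hx).2 P hP k⟩) h6
      (fun x hx => ⟨fun k hk => h5 k hk x (hsub m (hsub2 m hx)), (h7 x (hsub2 m hx)).1⟩)
      (hp3 P hP).1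
    refine ⟨H, hH0, hHv, hHd, fun a => (hHc a).trans ?_, hHz⟩
    have hp0 : (1 : ℝ) ≤ (p m : ℝ) := by exact_mod_cast hpr.one_lt.le
    calc ((p m : ℝ)) ^ B ≤ (X m) ^ B := Real.rpow_le_rpow (by linarith) hp2 (by linarith)
      _ ≤ (mm X m) ^ B := by
          apply Real.rpow_le_rpow (by linarith) _ (by linarith)
          unfold mm
          have := le_abs_self (X m)
          linarith
      _ ≤ (mm X m) ^ ((⌈B⌉₊ : ℕ) : ℝ) := by
          apply Real.rpow_le_rpow_of_exponent_le _ (Nat.le_ceil B)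
          unfold mm
          have := abs_nonneg (X m)
          linarith
      _ = (mm X m) ^ (⌈B⌉₊) := Real.rpow_natCast _ _
  -- choose them
  let Hs : ℕ → MvPolynomial (Fin n) ℤ := fun m =>
    if h : ∃ H : MvPolynomial (Fin n) ℤ, H ≠ 0 ∧ H.vars ⊆ J ∧
      H.totalDegree ≤ D ∧ (∀ a, |((H.coeff a : ℤ) : ℝ)| ≤ mm X m ^ (⌈B⌉₊)) ∧
      ∀ x ∈ T'' m, eval (pt x) H = 0 then h.choose else 0
  have hHs : ∀ᶠ m in (U : Filter ℕ), Hs m ≠ 0 ∧ (Hs m).vars ⊆ J ∧
      (Hs m).totalDegree ≤ D ∧ (∀ a, |(((Hs m).coeff a : ℤ) : ℝ)| ≤ mm X m ^ (⌈B⌉₊)) ∧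
      ∀ x ∈ T'' m, eval (pt x) (Hs m) = 0 := by
    filter_upwards [hex] with m hm
    have h1 : Hs m = hm.choose := dif_pos hm
    rw [h1]
    exact hm.choose_spec
  obtain ⟨F0, hF0⟩ := hLFT U X n D (⌈B⌉₊) Hs (by
    filter_upwards [hHs] with m hm
    exact ⟨hm.2.2.1, hm.2.2.2.1⟩)
  have hvan2 : Van T'' F0 := by
    filter_upwards [hF0, hHs] with m h1 h2 x hx
    unfold ev
    rw [h1, eval_cast, h2.2.2.2.2 x hx]
    simp
  have hvan3 : Van T F0 := hgen.2 T'' (fun m => (hsub2 m).trans (hsub m)) ⟨c, hc, hcard⟩ F0 hvan2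
  have hnull : Null F0 := by
    apply hch.ind F0 _ hvan3
    filter_upwards [hF0, hHs] with m h1 h2
    rw [h1]
    exact (MvPolynomial.vars_map _ _).trans h2.2.1
  have hfalse : ∀ᶠ m in (U : Filter ℕ), False := by
    filter_upwards [hF0, hHs, hnull] with m h1 h2 h3
    rw [h1] at h3
    apply h2.1
    have hinj : Function.Injective (map (Int.castRingHom ℚ) :
        MvPolynomial (Fin n) ℤ → MvPolynomial (Fin n) ℚ) :=
      MvPolynomial.map_injective _ Int.cast_injective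
    apply hinj
    rw [h3, map_zero]
  exact (Filter.eventually_const.mp hfalse)

end Pool.PW
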